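import Pool.Agent.X24.CutSum
import Pool.Agent.TH395.P5.Fin
import Pool.Agent.TH362.TF.Main
import Pool.Agent.TH362.TF.Multi
import Pool.Agent.TH362.TF.Contr
import Pool.Agent.TH362.TF.Cyc

/-!
# Sums along edge cuts with at most three edges (MP_e6539c_co)

Let `CutSum` be the least class of finite multigraphs which contains the graphs of pathwidth at most
five, the graphs of treewidth at most four and the graphs with at most sixteen vertices of odd
degree, and which contains a graph `G` as soon as it contains `G / Z` and `G / Zᶜ` for some set `Z`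
of vertices with at most three outgoing edges. The number of vertices of odd degree and the width of
the graphs in this class are not bounded. A graph in this class without isthmuses and without a
Petersen minor is the union of two cycles.
-/

set_option autoImplicit false

namespace Pool.Agent.Results.MP_e6539c_co.CutSums

open Finset

/-- The vertices `x` and `y` are joined by an edge different from `e`. -/
def AdjWithout {V E : Type} (src dst : E → V) (e : E) (x y : V) : Prop :=
  ∃ e', e' ≠ e ∧ ((src e' = x ∧ dst e' = y) ∨ (src e' = y ∧ dst e' = x))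

/-- The edge `e` is an isthmus: its ends are not joined by a walk that avoids `e`. -/
def IsIsthmus {V E : Type} (src dst : E → V) (e : E) : Prop :=
  ¬ Relation.ReflTransGen (AdjWithout src dst e) (src e) (dst e)

/-- `C` is a cycle (a disjoint union of circuits): every vertex has even degree in `(V, C)`; a loop
counts twice. -/
def IsCycle {V E : Type} [DecidableEq V] (src dst : E → V) (C : Finset E) : Prop :=
  ∀ v : V, Even ((C.filter (fun e => src e = v)).card + (C.filter (fun e => dst e = v)).card)

/-- `X 0, X 1, ...` is a path decomposition of width at most `w`: every edge has both ends in one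
of the sets, every vertex lies in an interval of the sets, and the sets have at most `w + 1`
elements. -/
structure IsPathDecomposition {V E : Type} [DecidableEq V] (src dst : E → V) (w : ℕ)
    (X : ℕ → Finset V) : Prop where
  edge : ∀ e, ∃ i, src e ∈ X i ∧ dst e ∈ X i
  interval : ∀ i j k, i ≤ j → j ≤ k → X i ∩ X k ⊆ X j
  width : ∀ i, (X i).card ≤ w + 1

/-- Tree decomposition of the graph, with bags `bag i` for the nodes `i` of the tree `T`. -/
def IsTreeDecomposition {V E ι : Type} (src dst : E → V) (T : SimpleGraph ι)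
    (bag : ι → Finset V) : Prop :=
  T.IsTree ∧ (∀ v, ∃ i, v ∈ bag i) ∧ (∀ e, ∃ i, src e ∈ bag i ∧ dst e ∈ bag i) ∧
    ∀ (i j : ι) (p : T.Walk i j), p.IsPath → ∀ k ∈ p.support, ∀ v, v ∈ bag i → v ∈ bag j →
      v ∈ bag k

/-- The treewidth is at most `k`. -/
def TreewidthLE {V E : Type} (src dst : E → V) (k : ℕ) : Prop :=
  ∃ (ι : Type) (_ : Fintype ι) (T : SimpleGraph ι) (bag : ι → Finset V),
    IsTreeDecomposition src dst T bag ∧ ∀ i, (bag i).card ≤ k + 1

/-- The degree of the vertex `v`; a loop counts twice. -/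
def deg {V E : Type} [DecidableEq V] [Fintype E] (src dst : E → V) (v : V) : ℕ :=
  (univ.filter (fun e => src e = v)).card + (univ.filter (fun e => dst e = v)).card

/-- The vertices of the Petersen graph: the `2`-element subsets of a `5`-element set; two of them
are adjacent if they are disjoint. -/
def PetVertex : Type := {s : Finset (Fin 5) // s.card = 2}

/-- The vertices `x` and `y` lie in `B` and are joined by an edge. -/
def AdjIn {V E : Type} (src dst : E → V) (B : Set V) (x y : V) : Prop :=
  x ∈ B ∧ y ∈ B ∧ ∃ e, (src e = x ∧ dst e = y) ∨ (src e = y ∧ dst e = x)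

/-- The multigraph has a Petersen graph minor: there are nonempty disjoint vertex sets `B s`, one
for each vertex `s` of the Petersen graph, such that any two vertices of `B s` are joined by a walk
in `B s`, and such that an edge joins `B s` and `B t` if `s` and `t` are adjacent. -/
def HasPetersenMinor {V E : Type} (src dst : E → V) : Prop :=
  ∃ B : PetVertex → Set V, (∀ s, (B s).Nonempty) ∧
    (∀ s t, s ≠ t → Disjoint (B s) (B t)) ∧
    (∀ s, ∀ x ∈ B s, ∀ y ∈ B s, Relation.ReflTransGen (AdjIn src dst (B s)) x y) ∧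
    ∀ s t : PetVertex, Disjoint s.1 t.1 →
      ∃ e, (src e ∈ B s ∧ dst e ∈ B t) ∨ (src e ∈ B t ∧ dst e ∈ B s)

section
variable {V E : Type} [Fintype V] [DecidableEq V] [Fintype E] [DecidableEq E]

/-- The basic graphs: pathwidth at most five, or treewidth at most four, or at most sixteen vertices
of odd degree. -/
def Basic (src dst : E → V) : Prop :=
  (∃ X, IsPathDecomposition src dst 5 X) ∨ TreewidthLE src dst 4 ∨
    (univ.filter (fun v => Odd (deg src dst v))).card ≤ 16

/-- The edges with exactly one end in `Z`. -/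
def cut (src dst : E → V) (Z : Finset V) : Finset E :=
  univ.filter (fun e => ¬ (src e ∈ Z ↔ dst e ∈ Z))

/-- Contraction of `Z` to its element `z`: every vertex of `Z` is replaced by `z` (the edges inside
`Z` become loops at `z`, the other vertices of `Z` become isolated). -/
def contract (Z : Finset V) (z v : V) : V := if v ∈ Z then z else v

/-- The least class which contains the basic graphs and contains a graph as soon as it contains the
two contractions of the sides of a cut with at most three edges. -/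
inductive CutSum : (E → V) → (E → V) → Prop
  | basic (src dst : E → V) : Basic src dst → CutSum src dst
  | sum (src dst : E → V) (Z : Finset V) (z z' : V) : z ∈ Z → z' ∉ Z →
      (cut src dst Z).card ≤ 3 → CutSum (contract Z z ∘ src) (contract Z z ∘ dst) →
      CutSum (contract Zᶜ z' ∘ src) (contract Zᶜ z' ∘ dst) → CutSum src dst

open Pool.Agent.TH499.TF in
theorem noCut {src dst : E → V} (hI : ∀ e, ¬ IsIsthmus src dst e) (Y : Finset V) :
    (dlt src dst Y).card ≠ 1 := by
  intro hY
  obtain ⟨e, he⟩ := card_eq_one.mp hY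
  apply hI e
  unfold IsIsthmus
  intro hr
  have hstay : ∀ x y, Relation.ReflTransGen (AdjWithout src dst e) x y → (x ∈ Y ↔ y ∈ Y) := by
    intro x y h
    induction h with
    | refl => exact Iff.rfl
    | tail _ h2 ih =>
      refine ih.trans ?_
      obtain ⟨e', he', h1⟩ := h2
      have hn : e' ∉ dlt src dst Y := by rw [he, mem_singleton]; exact he'
      rw [mem_dlt, not_not] at hn
      rcases h1 with ⟨h2, h3⟩ | ⟨h2, h3⟩
      · rw [h2, h3] at hn; exact hn
      · rw [h2, h3] at hn; exact hn.symm
  have hm : e ∈ dlt src dst Y := by rw [he]; exact mem_singleton_self _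
  rw [mem_dlt] at hm
  exact hm (hstay _ _ hr)

open Pool.Agent.TH499.TF in
omit [DecidableEq E] in
theorem noIsthmus {src dst : E → V} (h : ∀ Y, (dlt src dst Y).card ≠ 1) (e : E) :
    ¬ IsIsthmus src dst e := by
  classical
  intro hI
  unfold IsIsthmus at hI
  apply h (univ.filter (fun v => Relation.ReflTransGen (AdjWithout src dst e) (src e) v))
  rw [card_eq_one]
  refine ⟨e, ?_⟩
  ext e'
  rw [mem_dlt, mem_singleton, mem_filter, mem_filter]
  constructor
  · intro h1
    by_contra hne
    apply h1
    constructor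
    · rintro ⟨-, h2⟩
      exact ⟨mem_univ _, h2.tail ⟨e', hne, Or.inl ⟨rfl, rfl⟩⟩⟩
    · rintro ⟨-, h2⟩
      exact ⟨mem_univ _, h2.tail ⟨e', hne, Or.inr ⟨rfl, rfl⟩⟩⟩
  · rintro rfl h1
    exact hI (h1.mp ⟨mem_univ _, Relation.ReflTransGen.refl⟩).2

open Pool.Agent.TH499.TF in
omit [Fintype E] [DecidableEq E] in
theorem minor_of_PM {src dst : E → V} (h : PM src dst) : HasPetersenMinor src dst := by
  classical
  obtain ⟨S, h1, h2, h3⟩ := h
  refine ⟨fun i => (S i : Set V), fun i => ?_, fun i j hij => disjoint_coe.mpr (h2 i j hij),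
    fun i x hx y hy => ?_, fun i j hij => ?_⟩
  · obtain ⟨j, hj⟩ := Pool.Agent.X24.CS.exists_disj i
    obtain ⟨e, x, y, hx, -⟩ := h3 i j hj
    exact ⟨x, hx⟩
  · by_contra hcon
    obtain ⟨e, a, b, ha, hb, hbA, hj⟩ := h1 i
      ((S i).filter (fun v => Relation.ReflTransGen (AdjIn src dst (S i : Set V)) x v))
      (filter_subset _ _) ⟨x, mem_filter.mpr ⟨hx, Relation.ReflTransGen.refl⟩⟩
      (fun h => hcon (mem_filter.mp (h ▸ (show y ∈ S i from hy))).2)
    rw [mem_filter] at ha
    exact hbA (mem_filter.mpr ⟨hb, ha.2.tail ⟨ha.1, hb, e, hj⟩⟩)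
  · obtain ⟨e, x, y, hx, hy, hj⟩ := h3 i j hij
    refine ⟨e, ?_⟩
    rcases hj with ⟨h4, h5⟩ | ⟨h4, h5⟩
    · left; rw [h4, h5]; exact ⟨hx, hy⟩
    · right; rw [h4, h5]; exact ⟨hy, hx⟩

/-- a walk from `A` to the outside of `A` has a step which leaves `A` -/
theorem leave {V : Type} {R : V → V → Prop} {A : Set V} {x y : V}
    (h : Relation.ReflTransGen R x y) (hx : x ∈ A) (hy : y ∉ A) : ∃ a b, a ∈ A ∧ b ∉ A ∧ R a b := by
  induction h with
  | refl => exact absurd hx hy
  | @tail b c _ h2 ih =>
    by_cases hb : b ∈ A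
    · exact ⟨b, c, hb, hy, h2⟩
    · exact ih hb

open Pool.Agent.TH499.TF in
omit [Fintype E] [DecidableEq E] in
theorem PM_of_minor {src dst : E → V} (h : HasPetersenMinor src dst) : PM src dst := by
  classical
  obtain ⟨B, h0, h1, h2, h3⟩ := h
  refine ⟨fun i => univ.filter (· ∈ B i), fun i A hA hne hA' => ?_, fun i j hij => ?_,
    fun i j hij => ?_⟩
  · obtain ⟨a, ha⟩ := hne
    obtain ⟨b, hb, hbA⟩ : ∃ b ∈ univ.filter (· ∈ B i), b ∉ A := by
      by_contra hcon
      push Not at hcon
      exact hA' (Subset.antisymm hA hcon)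
    obtain ⟨c, d, hc, hd, hcB, hdB, e, he⟩ := leave (A := (A : Set V))
      (h2 i a (mem_filter.mp (hA ha)).2 b (mem_filter.mp hb).2) ha hbA
    exact ⟨e, c, d, hc, mem_filter.mpr ⟨mem_univ _, hdB⟩, hd, he⟩
  · rw [Finset.disjoint_left]
    intro v hv hv'
    exact Set.disjoint_left.mp (h1 i j hij) (mem_filter.mp hv).2 (mem_filter.mp hv').2
  · obtain ⟨e, he⟩ := h3 i j hij
    rcases he with ⟨h4, h5⟩ | ⟨h4, h5⟩
    · exact ⟨e, _, _, mem_filter.mpr ⟨mem_univ _, h4⟩, mem_filter.mpr ⟨mem_univ _, h5⟩,
        Or.inl ⟨rfl, rfl⟩⟩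
    · exact ⟨e, _, _, mem_filter.mpr ⟨mem_univ _, h5⟩, mem_filter.mpr ⟨mem_univ _, h4⟩,
        Or.inr ⟨rfl, rfl⟩⟩

open Pool.Agent.TH499.TF in
omit [Fintype E] [DecidableEq E] in
theorem PM_of_contracts {src dst : E → V}
    (h : Pool.Agent.TH362.Multi.ContractsToPetersen src dst) : PM src dst := by
  classical
  obtain ⟨B, h1, h2, h3, -⟩ := h
  refine ⟨fun i => univ.filter (· ∈ B i), fun i A hA hne hA' => ?_, fun i j hij => ?_,
    fun i j hij => ?_⟩
  · obtain ⟨a, ha⟩ := hne
    obtain ⟨b, hb, hbA⟩ : ∃ b ∈ univ.filter (· ∈ B i), b ∉ A := by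
      by_contra hcon
      push Not at hcon
      exact hA' (Subset.antisymm hA hcon)
    obtain ⟨c, d, hc, hd, e, he, hj⟩ := leave (A := (A : Set V))
      ((h1 i).2 a (mem_filter.mp (hA ha)).2 b (mem_filter.mp hb).2) ha hbA
    have hdB : d ∈ B i := by
      rcases hj with ⟨h4, h5⟩ | ⟨h4, h5⟩
      · rw [← h5]; exact he.2
      · rw [← h4]; exact he.1
    exact ⟨e, c, d, hc, mem_filter.mpr ⟨mem_univ _, hdB⟩, hd, hj⟩
  · rw [Finset.disjoint_left]
    intro v hv hv'
    exact Set.disjoint_left.mp (h2 i j hij) (mem_filter.mp hv).2 (mem_filter.mp hv').2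
  · obtain ⟨e, he, -⟩ := h3 i j hij
    rcases he with ⟨h4, h5⟩ | ⟨h4, h5⟩
    · exact ⟨e, _, _, mem_filter.mpr ⟨mem_univ _, h4⟩, mem_filter.mpr ⟨mem_univ _, h5⟩,
        Or.inl ⟨rfl, rfl⟩⟩
    · exact ⟨e, _, _, mem_filter.mpr ⟨mem_univ _, h5⟩, mem_filter.mpr ⟨mem_univ _, h4⟩,
        Or.inr ⟨rfl, rfl⟩⟩

omit [Fintype V] [DecidableEq E] in
/-- parity of the number of the ends at `v` -/
theorem sum_ind (src dst : E → V) (P : E → Prop) [DecidablePred P] (v : V) :
    ∑ e, ((if src e = v then (if P e then (1 : ZMod 2) else 0) else 0) +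
      (if dst e = v then (if P e then (1 : ZMod 2) else 0) else 0)) =
    ((((univ.filter P).filter (fun e => src e = v)).card +
      ((univ.filter P).filter (fun e => dst e = v)).card : ℕ) : ZMod 2) := by
  push_cast
  rw [sum_add_distrib, filter_filter, filter_filter, card_filter, card_filter]
  push_cast
  congr 1
  · refine sum_congr rfl fun e _ => ?_
    by_cases h1 : src e = v <;> by_cases h2 : P e <;> simp [h1, h2]
  · refine sum_congr rfl fun e _ => ?_
    by_cases h1 : dst e = v <;> by_cases h2 : P e <;> simp [h1, h2]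

open Pool.Agent.TH499.TF in
omit [Fintype V] in
theorem nz_of_cycles {src dst : E → V} {C₁ C₂ : Finset E} (h1 : IsCycle src dst C₁)
    (h2 : IsCycle src dst C₂) (h : C₁ ∪ C₂ = univ) : NZ src dst := by
  classical
  refine ⟨fun e => (if e ∈ C₁ then 1 else 0, if e ∈ C₂ then 1 else 0), fun e he => ?_,
    fun v => ?_⟩
  · have he' : e ∈ C₁ ∪ C₂ := by rw [h]; exact mem_univ _
    rw [Prod.mk_eq_zero] at he
    rw [mem_union] at he'
    rcases he' with h3 | h3
    · rw [if_pos h3] at he; exact one_ne_zero he.1
    · rw [if_pos h3] at he; exact one_ne_zero he.2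
  · have k1 := sum_ind src dst (fun e => e ∈ C₁) v
    have k2 := sum_ind src dst (fun e => e ∈ C₂) v
    have f1 : (univ.filter (fun e => e ∈ C₁)) = C₁ := by ext; simp
    have f2 : (univ.filter (fun e => e ∈ C₂)) = C₂ := by ext; simp
    rw [f1, (ZMod.natCast_eq_zero_iff_even).mpr (h1 v)] at k1
    rw [f2, (ZMod.natCast_eq_zero_iff_even).mpr (h2 v)] at k2
    unfold dv jn
    ext
    · rw [Prod.fst_sum]
      refine Eq.trans (sum_congr rfl fun e _ => ?_) k1
      rw [Prod.fst_add]
      congr 1
      · by_cases hh : src e = v <;> simp [hh]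
      · by_cases hh : dst e = v <;> simp [hh]
    · rw [Prod.snd_sum]
      refine Eq.trans (sum_congr rfl fun e _ => ?_) k2
      rw [Prod.snd_add]
      congr 1
      · by_cases hh : src e = v <;> simp [hh]
      · by_cases hh : dst e = v <;> simp [hh]

open Pool.Agent.TH499.TF in
omit [Fintype V] in
theorem cycles_of_nz {src dst : E → V} (h : NZ src dst) :
    ∃ C₁ C₂ : Finset E, IsCycle src dst C₁ ∧ IsCycle src dst C₂ ∧ C₁ ∪ C₂ = univ := by
  classical
  obtain ⟨f, hf, hd⟩ := h
  have h01 : ∀ a : ZMod 2, (if a ≠ 0 then (1 : ZMod 2) else 0) = a := by decide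
  refine ⟨univ.filter (fun e => (f e).1 ≠ 0), univ.filter (fun e => (f e).2 ≠ 0), ?_, ?_, ?_⟩
  · intro v
    rw [← ZMod.natCast_eq_zero_iff_even, ← sum_ind]
    have h := congrArg Prod.fst (hd v)
    unfold dv jn at h
    rw [Prod.fst_sum] at h
    refine Eq.trans (sum_congr rfl fun e _ => ?_) h
    rw [Prod.fst_add, h01]
    congr 1 <;> split_ifs <;> rfl
  · intro v
    rw [← ZMod.natCast_eq_zero_iff_even, ← sum_ind]
    have h := congrArg Prod.snd (hd v)
    unfold dv jn at h
    rw [Prod.snd_sum] at h
    refine Eq.trans (sum_congr rfl fun e _ => ?_) h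
    rw [Prod.snd_add, h01]
    congr 1 <;> split_ifs <;> rfl
  · ext e
    simp only [mem_union, mem_filter, mem_univ, true_and, iff_true]
    by_contra hcon
    push Not at hcon
    exact hf e (Prod.ext hcon.1 hcon.2)

open Pool.Agent.TH499.TF in
theorem basic_nz (src dst : E → V) (h : Basic src dst) (hb : ∀ Y, (dlt src dst Y).card ≠ 1)
    (hP : ¬ PM src dst) : NZ src dst := by
  classical
  rcases h with ⟨X, hX⟩ | h | h
  · obtain ⟨C₁, C₂, h1, h2, h3⟩ := Pool.Agent.TH395.P5.res V E src dst X
      ⟨hX.edge, hX.interval, hX.width⟩ (noIsthmus hb) (fun h => hP (PM_of_minor h))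
    exact nz_of_cycles h1 h2 h3
  · obtain ⟨ι, _, T, bag, ⟨t1, _, t2, t3⟩, t4⟩ := h
    have hTD : HasTD 5 src dst := HasTD.of_tree t1 t3 t2 t4
    exact cls_nz _ src dst rfl ⟨hTD, hP⟩ hb
  · have h1 : TH362.TF.N1 src dst univ := by
      intro x hx
      apply hb (univ.filter (fun v => x v = true))
      rw [← hx]
      congr 1
      ext e
      rw [mem_dlt, TH362.TF.cut, mem_filter, mem_filter, mem_filter]
      simp only [mem_univ, true_and]
      cases x (src e) <;> cases x (dst e) <;> simp
    have h2 : (TH362.TF.odd src dst univ).card ≤ 16 := by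
      refine le_trans (le_of_eq ?_) h
      unfold TH362.TF.odd
      congr 1
      ext v
      rw [mem_filter, mem_filter]
      have h3 : TH362.TF.deg src dst univ v = deg src dst v := by
        unfold TH362.TF.deg deg
        rw [sum_add_distrib, card_filter, card_filter]
      rw [h3]
    rcases TH362.TF.main16 src dst univ h1 h2 with ⟨φ, h3, h4⟩ | h3
    · exact ⟨φ, fun e => h3 e (mem_univ _), h4⟩
    · exact absurd (PM_of_contracts (TH362.TF.contracts src dst h1 h3)) hP

end

/-- A finite multigraph in the class `CutSum` without isthmuses and without a Petersen minor is the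
union of two cycles. -/
theorem result (V E : Type) [Fintype V] [DecidableEq V] [Fintype E] [DecidableEq E]
    (src dst : E → V) (h : CutSum src dst) (hI : ∀ e, ¬ IsIsthmus src dst e)
    (hP : ¬ HasPetersenMinor src dst) :
    ∃ C₁ C₂ : Finset E, IsCycle src dst C₁ ∧ IsCycle src dst C₂ ∧ C₁ ∪ C₂ = univ := by
  have key : ∀ {src dst : E → V}, CutSum src dst → Pool.Agent.X24.CS.Built Basic src dst := by
    intro src dst h
    induction h with
    | basic src dst h => exact .base _ _ h
    | sum src dst Z z z' hz hz' h3 _ _ ih1 ih2 => exact .sum _ _ Z z z' hz hz' h3 ih1 ih2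
  exact cycles_of_nz ((key h).nz basic_nz (noCut hI) (fun h => hP (minor_of_PM h)))

end Pool.Agent.Results.MP_e6539c_co.CutSums
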