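import Pool.Agent.X186.IC.DegSum
import Pool.Agent.TH362.TF.Main
import Pool.Agent.TH362.TF.Multi
import Pool.Agent.TH362.TF.Contr
import Pool.Agent.TH362.TF.Cyc

/-!
Degree sum conditions for independent sets: a finite multigraph without isthmuses whose vertices,
pairs of non-adjacent vertices, or triples, quadruples or quintuples of pairwise non-adjacent
vertices have many neighbours is the union of two cycles, or a component of it can be contracted to
the Petersen graph. For simple graphs with `n` vertices it suffices that `d(u) + d(v) > 2 n / 15 - 2`
and `d(u) + d(v) ≥ 19` for all pairs of different non-adjacent vertices `u`, `v`.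

Proof. Take a minimal quotient `H` without nowhere-zero 4-flow. It has at least 18 vertices of odd
degree (by a theorem of the starting library), `k` vertices of `H` span at most `2 k - 3` edges, and
`H` has no triangles. So `H` has at least 17 vertices of odd degree at most nine. The preimage of
such a vertex contains a vertex with at most nine neighbours, or a vertex all of whose neighbours
are in the preimage. If there are many preimages of the first kind, `r + 1` of them are pairwise
non-adjacent, and their vertices have too few neighbours. Otherwise there are at least `k` preimages
of the second kind, and they have more than `n` vertices together.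
-/

set_option autoImplicit false

namespace Pool.Agent.Results.MP_e6539c_co.DegreeSums

open Pool.Agent.TH362.Multi Pool.Agent.X186.IC

/-- Let `s t : E → V` be a finite multigraph without isthmuses. Suppose that for some `r ≤ 4` and some `σ > 9 (r + 1)` every `r + 1` pairwise non-adjacent
vertices have together at least `σ` neighbours (counted with multiplicity, that is, the sum of the
numbers of their neighbours is at least `σ`), and that the number `n` of vertices satisfies
`(r + 1) n < k (σ + r + 1)`, where `k = 17, 15, 12, 9, 5` for `r = 0, 1, 2, 3, 4`
(`LargeDegreeSums`). Then the edge set is the union of two cycles, or some component can be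
contracted to the Petersen graph. -/
theorem result (V E : Type) [Finite V] [Finite E] (s t : E → V)
    (hb : ∀ e, ¬ Isthmus s t e) (h : LargeDegreeSums s t) :
    (∃ C₁ C₂ : Set E, IsCycle s t C₁ ∧ IsCycle s t C₂ ∧ C₁ ∪ C₂ = Set.univ) ∨
      ContractsToPetersen s t := by
  classical
  have := Fintype.ofFinite V
  have := Fintype.ofFinite E
  have h1 := TH362.TF.n1_of s t hb
  rcases dic_deg h1 h with h | ⟨κ, h, -⟩
  · exact Or.inl (TH362.TF.two_cycles s t h)
  · exact Or.inr (TH362.TF.contracts s t h1 ⟨κ, h⟩)

end Pool.Agent.Results.MP_e6539c_co.DegreeSums
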