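import Pool.Agent.X42.FewCuts
import Pool.Agent.TH362.TF.Main
import Pool.Agent.TH362.TF.Multi
import Pool.Agent.TH362.TF.Contr
import Pool.Agent.TH362.TF.Cyc

/-!
A finite multigraph without isthmuses and without seventeen pairwise disjoint vertex sets with
3, 5, 7 or 9 boundary edges is the union of two cycles, or a component of it can be contracted to
the Petersen graph.
-/

set_option autoImplicit false

namespace Pool.Agent.Results.MP_e6539c_co.FewSmallCuts

open Pool.Agent.TH362.Multi Pool.Agent.X42.FewCuts

/-- Let `s t : E → V` be a finite multigraph without isthmuses. Suppose that there are no seventeen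
pairwise disjoint vertex sets with an odd number, at most nine, of boundary edges
(`NoSeventeen`), or that every vertex has at least `d` different neighbours for some `d ≥ 10` and
there are fewer than `17 (d + 1)` vertices (`ManyNeighbours`), or that for all `m ≥ 18` pairwise
disjoint vertex sets with odd numbers of boundary edges these numbers have a sum of more than
`4 m - 6` (`NoLightFamily`; this condition is implied by each of the two other ones). Then the
edge set is the union of two cycles, or some component can be contracted to the Petersen graph. -/
theorem result (V E : Type) [Finite V] [Finite E] (s t : E → V)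
    (hb : ∀ e, ¬ Isthmus s t e) (h : FewSmallCuts s t) :
    (∃ C₁ C₂ : Set E, IsCycle s t C₁ ∧ IsCycle s t C₂ ∧ C₁ ∪ C₂ = Set.univ) ∨
      ContractsToPetersen s t := by
  classical
  have := Fintype.ofFinite V
  have := Fintype.ofFinite E
  have h1 := TH362.TF.n1_of s t hb
  rcases X42.FlowH.mainB s t Finset.univ h1 (not_bad h1 h) with h | h
  · exact Or.inl (TH362.TF.two_cycles s t h)
  · exact Or.inr (TH362.TF.contracts s t h1 h)

end Pool.Agent.Results.MP_e6539c_co.FewSmallCuts
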