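import Pool.Agent.X186.IC.Defs
import Pool.Agent.TH362.TF.Main
import Pool.Agent.TH362.TF.Multi
import Pool.Agent.TH362.TF.Contr
import Pool.Agent.TH362.TF.Cyc

/-!
A finite multigraph without isthmuses and without six pairwise disjoint and pairwise non-adjacent
vertex sets with 3, 5, 7 or 9 boundary edges is the union of two cycles, or a component of it can be
contracted to the Petersen graph. The same holds if there are no six pairwise non-adjacent vertices
of odd degree, even after the deletion of one vertex from the list of the odd vertices.

Proof. Take a minimal quotient `H` without nowhere-zero 4-flow. It has at least 18 vertices of odd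
degree (by a theorem of the starting library), no set of at least two vertices of `H` spans two
disjoint spanning trees, so `k` vertices span at most `2 k - 3` edges, and `H` has no triangles.
Hence at least `18 - ⌊6 / c⌋` vertices of `H` have an odd degree of at most `2 c + 1`. A graph
without triangles all of whose subgraphs have a vertex of degree at most three and with at least
`4 a - 3` vertices, `a ≥ 3`, has `a + 1` independent vertices. Their preimages are the vertex sets.
-/

set_option autoImplicit false

namespace Pool.Agent.Results.MP_e6539c_co.IndependentSmallCuts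

open Pool.Agent.TH362.Multi Pool.Agent.X186.IC

/-- Let `s t : E → V` be a finite multigraph without isthmuses. Suppose that for some vertex set
`U` and some `a ≥ 3`, `c ≥ 1` with `4 a + |U| + ⌊6 / c⌋ ≤ 21` there are no `a + 1` pairwise
disjoint and pairwise non-adjacent vertex sets, all of them disjoint from `U`, each with an odd
number, at most `2 c + 1`, of boundary edges (`IndependentSmallCuts`). Then the edge set is the
union of two cycles, or some component can be contracted to the Petersen graph. -/
theorem result (V E : Type) [Finite V] [Finite E] (s t : E → V)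
    (hb : ∀ e, ¬ Isthmus s t e) (h : IndependentSmallCuts s t) :
    (∃ C₁ C₂ : Set E, IsCycle s t C₁ ∧ IsCycle s t C₂ ∧ C₁ ∪ C₂ = Set.univ) ∨
      ContractsToPetersen s t := by
  classical
  have := Fintype.ofFinite V
  have := Fintype.ofFinite E
  have h1 := TH362.TF.n1_of s t hb
  rcases nz_or_pq h1 h with h | h
  · exact Or.inl (TH362.TF.two_cycles s t h)
  · exact Or.inr (TH362.TF.contracts s t h1 h)

/-- The case in which there are at most `a` pairwise non-adjacent vertices of odd degree outside
`U`, where `4 a + |U| ≤ 21`: at most five such vertices outside one vertex, at most four outside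
five vertices, or at most three outside nine vertices. -/
theorem odd_vertices (V E : Type) [Finite V] [Finite E] (s t : E → V)
    (hb : ∀ e, ¬ Isthmus s t e) (U : Set V) (a : ℕ) (ha : 3 ≤ a) (hU : 4 * a + U.ncard ≤ 21)
    (h : ∀ I : Set V, (∀ v ∈ I, v ∉ U ∧ Odd (degree s t Set.univ v)) →
      (∀ v ∈ I, ∀ w ∈ I, v ≠ w → ¬ Adjacent s t {v} {w}) → I.ncard ≤ a) :
    (∃ C₁ C₂ : Set E, IsCycle s t C₁ ∧ IsCycle s t C₂ ∧ C₁ ∪ C₂ = Set.univ) ∨
      ContractsToPetersen s t := by
  classical
  have := Fintype.ofFinite V
  have := Fintype.ofFinite E
  refine result V E s t hb (of_odd U a ha hU fun I h1 h2 => ?_)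
  rw [← Set.ncard_coe_finset]
  refine h I (fun v hv => ⟨(h1 v hv).1, ?_⟩) (fun v hv w hw => h2 v hv w hw)
  have h3 := TH362.TF.Cyc.degree_eq s t Finset.univ v
  rw [Finset.coe_univ] at h3
  rw [h3]
  exact (h1 v hv).2

end Pool.Agent.Results.MP_e6539c_co.IndependentSmallCuts
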